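import Mathlib
import Pool.Agent.N178.HW.Defs

/-!
# Highest weight vectors in tensor spaces of the smallest degree (GHC/D of helper178's project)
-/

set_option linter.unusedSectionVars false

namespace Pool.Agent.N78.GHC

open Finset Matrix Pool.Agent.W437.HC Pool.Agent.V1168.GH Pool.Agent.N178.HW

section det

variable {n : Type} [Fintype n] [DecidableEq n]

theorem det_updateRow_eq (M : Matrix n n ℂ) (k : n) (b : n → ℂ) :
    (M.updateRow k b).det = ∑ s, b s * M.adjugate s k := by
  have h : (Mᵀ.updateCol k b).det = ∑ s, b s * M.adjugate s k := by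
    rw [← cramer_apply, cramer_eq_adjugate_mulVec, ← adjugate_transpose]
    simp only [mulVec, dotProduct, transpose_apply]
    exact sum_congr rfl fun s _ => mul_comm _ _
  rw [← h, updateCol_transpose, det_transpose]

/-- The determinant is a derivation. -/
theorem sum_det_updateRow (M N : Matrix n n ℂ) :
    ∑ k, (M.updateRow k ((M * N) k)).det = N.trace * M.det := by
  simp only [det_updateRow_eq]
  have h : ∑ k, ∑ s, (M * N) k s * M.adjugate s k = (M * N * M.adjugate).trace := by
    simp only [Matrix.trace, Matrix.diag_apply]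
    refine sum_congr rfl fun k _ => ?_
    rw [Matrix.mul_apply]
  rw [h, Matrix.mul_assoc, Matrix.trace_mul_comm, Matrix.mul_assoc, adjugate_mul]
  rw [Matrix.mul_smul, Matrix.mul_one, Matrix.trace_smul, smul_eq_mul, mul_comm]

end det

section top

variable {R P : Type} [Fintype R] [DecidableEq R] [DecidableEq P]

/-- The slots. -/
abbrev Sl (c : R → ℤ) : Type := Σ x : R, Fin (c x).toNat

theorem Sl_ext {c : R → ℤ} {s t : Sl c} (h1 : s.1 = t.1) (h2 : (s.2 : ℕ) = (t.2 : ℕ)) : s = t := by
  obtain ⟨x, i⟩ := s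
  obtain ⟨y, j⟩ := t
  dsimp only at h1 h2
  subst h1
  congr
  exact Fin.ext h2

/-- The matrix of a word. -/
def MM (cls : R → P) (c : R → ℤ) (z : Sl c → R) : Matrix (Sl c) (Sl c) ℂ :=
  fun s t => if z s = t.1 ∧ (s.2 : ℕ) = (t.2 : ℕ) ∧ cls s.1 = cls t.1 then 1 else 0

/-- The antisymmetric vector. -/
noncomputable def ww (cls : R → P) (c : R → ℤ) : (Sl c → R) → ℂ := fun z => (MM cls c z).det

theorem ww_one (cls : R → P) (c : R → ℤ) : ww cls c (fun s => s.1) = 1 := by
  have h : MM cls c (fun s => s.1) = 1 := by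
    ext s t
    rw [MM, Matrix.one_apply]
    by_cases hst : s = t
    · subst hst
      simp
    · rw [if_neg hst, if_neg]
      rintro ⟨h1, h2, h3⟩
      exact hst (Sl_ext h1 h2)
  rw [ww, h, det_one]

theorem act_single (c : R → ℤ) (f : (Sl c → R) → ℂ) (x y : R) (z : Sl c → R) :
    act (Matrix.single x y (1 : ℂ)) f z =
      ∑ k, if z k = y then f (Function.update z k x) else 0 := by
  unfold act
  refine sum_congr rfl fun k _ => ?_
  rw [sum_eq_single x]
  · by_cases h : z k = y
    · rw [if_pos h, h, Matrix.single_apply_same, one_mul]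
    · rw [if_neg h, Matrix.single_apply_of_ne, zero_mul]
      intro h2
      exact h h2.2.symm
  · intro j _ hj
    rw [Matrix.single_apply_of_ne, zero_mul]
    intro h2
    exact hj h2.1.symm
  · intro h
    exact absurd (mem_univ _) h

theorem ww_kill (cls : R → P) (c : R → ℤ) {x y : R} (hxy : x ≠ y) (hcl : cls x = cls y)
    (hc : c x ≤ c y) : act (Matrix.single x y (1 : ℂ)) (ww cls c) = 0 := by
  funext z
  rw [act_single]
  let N : Matrix (Sl c) (Sl c) ℂ := fun s t =>
    if s.1 = y ∧ t.1 = x ∧ (s.2 : ℕ) = (t.2 : ℕ) then 1 else 0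
  have hN : N.trace = 0 := by
    rw [Matrix.trace]
    refine sum_eq_zero fun s _ => ?_
    rw [Matrix.diag_apply]
    show (if s.1 = y ∧ s.1 = x ∧ (s.2 : ℕ) = (s.2 : ℕ) then (1 : ℂ) else 0) = 0
    rw [if_neg]
    rintro ⟨h1, h2, _⟩
    exact hxy (h2.symm.trans h1)
  have h := sum_det_updateRow (MM cls c z) N
  rw [hN, zero_mul] at h
  refine Eq.trans (sum_congr rfl fun k _ => ?_) h
  -- the row
  have hrow : (MM cls c z * N) k = fun t => if z k = y ∧ x = t.1 ∧ (k.2 : ℕ) = (t.2 : ℕ) ∧
      cls k.1 = cls t.1 then 1 else 0 := by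
    funext t
    rw [Matrix.mul_apply]
    by_cases h1 : z k = y ∧ x = t.1 ∧ (k.2 : ℕ) = (t.2 : ℕ) ∧ cls k.1 = cls t.1
    · rw [if_pos h1]
      obtain ⟨h1, h2, h3, h4⟩ := h1
      have hlt : (k.2 : ℕ) < (c y).toNat := by
        have h5 : (t.2 : ℕ) < (c x).toNat := lt_of_lt_of_eq t.2.2 (by rw [h2])
        have h6 : (c x).toNat ≤ (c y).toNat := Int.toNat_le_toNat hc
        omega
      rw [sum_eq_single (⟨y, ⟨k.2, hlt⟩⟩ : Sl c)]
      · rw [MM, if_pos ⟨h1, rfl, by rw [h4, ← h2]; exact hcl⟩, one_mul]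
        exact if_pos ⟨rfl, h2.symm, h3⟩
      · intro s _ hs
        by_cases h6 : z k = s.1 ∧ (k.2 : ℕ) = (s.2 : ℕ) ∧ cls k.1 = cls s.1
        · exfalso
          apply hs
          exact Sl_ext (h6.1.symm.trans h1) h6.2.1.symm
        · rw [MM, if_neg h6, zero_mul]
      · intro h6
        exact absurd (mem_univ _) h6
    · rw [if_neg h1]
      refine sum_eq_zero fun s _ => ?_
      by_cases h6 : z k = s.1 ∧ (k.2 : ℕ) = (s.2 : ℕ) ∧ cls k.1 = cls s.1
      · by_cases h7 : s.1 = y ∧ t.1 = x ∧ (s.2 : ℕ) = (t.2 : ℕ)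
        · exfalso
          apply h1
          refine ⟨h6.1.trans h7.1, h7.2.1.symm, h6.2.1.trans h7.2.2, ?_⟩
          rw [h6.2.2, h7.1, h7.2.1, hcl]
        · have : N s t = 0 := if_neg h7
          rw [this, mul_zero]
      · rw [MM, if_neg h6, zero_mul]
  by_cases hz : z k = y
  · rw [if_pos hz, ww]
    congr 1
    ext s t
    by_cases hs : s = k
    · subst hs
      rw [updateRow_self, hrow, MM, Function.update_self]
      simp only [hz, true_and]
    · rw [updateRow_ne hs, MM, MM, Function.update_of_ne hs]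
  · rw [if_neg hz]
    symm
    have : (MM cls c z * N) k = 0 := by
      rw [hrow]
      funext t
      rw [if_neg (fun h => hz h.1)]
      rfl
    rw [this]
    exact det_eq_zero_of_row_eq_zero k fun j => by rw [updateRow_self]; rfl

theorem ww_wt (cls : R → P) (c : R → ℤ) (z : Sl c → R) (hz : ww cls c z ≠ 0) (d : R → ℂ) :
    wt d z = ∑ x, ((c x).toNat : ℂ) * d x := by
  rw [ww, det_apply] at hz
  obtain ⟨π, _, hπ⟩ := exists_ne_zero_of_sum_ne_zero hz
  have h1 : ∀ s, z (π s) = s.1 := by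
    intro s
    by_contra hne
    apply hπ
    rw [prod_eq_zero (mem_univ s), smul_zero]
    rw [MM, if_neg]
    rintro ⟨h, _⟩
    exact hne h
  have h2 : wt d z = ∑ s : Sl c, d s.1 := by
    unfold wt
    rw [← Equiv.sum_comp π]
    exact sum_congr rfl fun s _ => by rw [h1]
  rw [h2, Fintype.sum_sigma]
  refine sum_congr rfl fun x _ => ?_
  show ∑ _y : Fin (c x).toNat, d x = _
  rw [sum_const, card_univ, Fintype.card_fin, nsmul_eq_mul]

theorem two_mul_toNat {inv : R → R} (hii : ∀ x, inv (inv x) = x) (c : R → ℤ)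
    (hc : ∀ x, c (inv x) = -c x) (d : R → ℂ) (hd : ∀ x, d (inv x) = -d x) :
    2 * ∑ x, ((c x).toNat : ℂ) * d x = ∑ x, (c x : ℂ) * d x := by
  have h1 : ∀ x, ((c x : ℤ) : ℂ) = ((c x).toNat : ℂ) - ((c (inv x)).toNat : ℂ) := by
    intro x
    have h : (c x : ℤ) = ((c x).toNat : ℤ) - ((c (inv x)).toNat : ℤ) := by
      rw [hc]
      omega
    exact_mod_cast h
  have h2 : ∑ x, ((c (inv x)).toNat : ℂ) * d x = -∑ x, ((c x).toNat : ℂ) * d x := by
    let e : R ≃ R := ⟨inv, inv, hii, hii⟩
    rw [← Equiv.sum_comp e, ← sum_neg_distrib]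
    refine sum_congr rfl fun x _ => ?_
    show ((c (inv (inv x))).toNat : ℂ) * d (inv x) = _
    rw [hii, hd]
    ring
  have h3 : ∑ x, (c x : ℂ) * d x =
      ∑ x, ((c x).toNat : ℂ) * d x - ∑ x, ((c (inv x)).toNat : ℂ) * d x := by
    rw [← sum_sub_distrib]
    refine sum_congr rfl fun x _ => ?_
    rw [h1]
    ring
  rw [h3, h2]
  ring

end top

theorem t_TOP : Pool.Agent.N178.HW.S_TOP := by
  intro R P _ _ _ cls b inv jj X h hF hH c hodd hdom
  refine ⟨Sl c, inferInstance, inferInstance, ww cls c, ?_, ?_, ?_⟩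
  · rw [Fintype.card_sigma]
    exact sum_congr rfl fun x _ => Fintype.card_fin _
  · intro h0
    have := congrFun h0 (fun s => s.1)
    rw [ww_one] at this
    exact one_ne_zero this
  · intro T
    refine ⟨hodd, ?_, ?_⟩
    · intro x y hcl hxy
      have hne : x ≠ y := by
        rintro rfl
        exact lt_irrefl _ hxy
      rw [EE, act_sub_left, act_smul_left, ww_kill cls c hne hcl (hdom x y hcl hxy),
        ww_kill cls c, smul_zero, sub_zero]
      · intro h1
        apply hne
        rw [← hF.ii x, ← h1, hF.ii]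
      · rw [hF.ci, hF.ci, hcl]
      · rw [hodd, hodd]
        have := hdom x y hcl hxy
        omega
    · intro z hz d hd
      rw [ww_wt cls c z hz d, two_mul_toNat hF.ii c hodd d hd.1]

end Pool.Agent.N78.GHC
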